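import Pool.Agent.Helper99.DF.St

/-! # Project DF, module SM: monomial inequalities for the next iterate -/

set_option autoImplicit false

namespace Pool.Agent.Helper51.DF.SM

open Pool.Agent.Helper99.DF

theorem prod_le (W : List ℕ) (f g : ℕ → ℤ) (h : ∀ k ∈ W, 0 ≤ f k ∧ f k ≤ g k) :
    0 ≤ (W.map f).prod ∧ (W.map f).prod ≤ (W.map g).prod := by
  induction W with
  | nil => simp
  | cons a W ih =>
    obtain ⟨i1, i2⟩ := ih (fun k hk => h k (List.mem_cons_of_mem _ hk))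
    obtain ⟨j1, j2⟩ := h a List.mem_cons_self
    simp only [List.map_cons, List.prod_cons]
    exact ⟨mul_nonneg j1 i1, mul_le_mul j2 i2 i1 (le_trans j1 j2)⟩

theorem prod_pos' (W : List ℕ) (f : ℕ → ℤ) (h : ∀ k ∈ W, 0 < f k) : 0 < (W.map f).prod := by
  induction W with
  | nil => simp
  | cons a W ih =>
    simp only [List.map_cons, List.prod_cons]
    exact mul_pos (h a List.mem_cons_self) (ih (fun k hk => h k (List.mem_cons_of_mem _ hk)))

theorem prod_mul3 (W : List ℕ) (c : ℤ) (f g : ℕ → ℤ) :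
    (W.map (fun k => c * (f k ^ 2 * g k))).prod = c ^ W.length * ((W.map f).prod ^ 2 * (W.map g).prod) := by
  induction W with
  | nil => simp
  | cons a W ih =>
    simp only [List.map_cons, List.prod_cons, List.length_cons, ih]
    ring

theorem prod_mul3' (W : List ℕ) (c : ℤ) (f g : ℕ → ℤ) :
    (W.map (fun k => c * (f k * g k))).prod = c ^ W.length * ((W.map f).prod * (W.map g).prod) := by
  induction W with
  | nil => simp
  | cons a W ih =>
    simp only [List.map_cons, List.prod_cons, List.length_cons, ih]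
    ring

/-- One site, upper bound. -/
theorem site1 (Cc x y X Y : ℤ) (N e : ℕ) (he : e ≤ N) (hC : 1 ≤ Cc) (hx : 0 ≤ x) (hy : 0 ≤ y)
    (hX : 0 ≤ X) (hY : 0 ≤ Y) (h : X * y ^ 2 ≤ Cc * x ^ 2 * Y) :
    X ^ e * Y ^ (N - e) * y ^ (2 * N) ≤ Cc ^ N * ((x ^ e * y ^ (N - e)) ^ 2 * Y ^ N) := by
  obtain ⟨d, rfl⟩ := Nat.exists_eq_add_of_le he
  rw [Nat.add_sub_cancel_left]
  calc X ^ e * Y ^ d * y ^ (2 * (e + d)) = (X * y ^ 2) ^ e * (Y ^ d * y ^ (2 * d)) := by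
        rw [mul_pow, mul_add, pow_add, ← pow_mul]; ring
    _ ≤ (Cc * x ^ 2 * Y) ^ e * (Y ^ d * y ^ (2 * d)) :=
        mul_le_mul_of_nonneg_right (pow_le_pow_left₀ (by positivity) h e) (by positivity)
    _ = Cc ^ e * ((x ^ e * y ^ d) ^ 2 * Y ^ (e + d)) := by
        rw [mul_pow, mul_pow, mul_pow, pow_add, ← pow_mul, ← pow_mul, ← pow_mul]; ring
    _ ≤ Cc ^ (e + d) * ((x ^ e * y ^ d) ^ 2 * Y ^ (e + d)) :=
        mul_le_mul_of_nonneg_right (pow_le_pow_right₀ hC (by omega)) (by positivity)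

/-- One site, lower bound. -/
theorem site2 (Cc x y X Y : ℤ) (N e : ℕ) (he : e ≤ N) (hC : 1 ≤ Cc) (hx : 0 ≤ x) (hy : 0 ≤ y)
    (hX : 0 ≤ X) (hY : 0 ≤ Y) (h : x ^ 2 * Y ≤ Cc * X * y ^ 2) :
    (x ^ e * y ^ (N - e)) ^ 2 * Y ^ N ≤ Cc ^ N * (X ^ e * Y ^ (N - e) * y ^ (2 * N)) := by
  obtain ⟨d, rfl⟩ := Nat.exists_eq_add_of_le he
  rw [Nat.add_sub_cancel_left]
  calc (x ^ e * y ^ d) ^ 2 * Y ^ (e + d) = (x ^ 2 * Y) ^ e * (Y ^ d * y ^ (2 * d)) := by
        rw [mul_pow, mul_pow, pow_add, ← pow_mul, ← pow_mul, ← pow_mul]; ring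
    _ ≤ (Cc * X * y ^ 2) ^ e * (Y ^ d * y ^ (2 * d)) :=
        mul_le_mul_of_nonneg_right (pow_le_pow_left₀ (by positivity) h e) (by positivity)
    _ = Cc ^ e * (X ^ e * Y ^ d * y ^ (2 * (e + d))) := by
        rw [mul_pow, mul_pow, mul_add, pow_add, ← pow_mul]; ring
    _ ≤ Cc ^ (e + d) * (X ^ e * Y ^ d * y ^ (2 * (e + d))) :=
        mul_le_mul_of_nonneg_right (pow_le_pow_right₀ hC (by omega)) (by positivity)

theorem hSM (h1 : StSU) : StSM := by
  intro n D e0 Cc Mg N Zs lo hi ents b hB hDD hR e ga heg hmon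
  obtain ⟨hD, hMg, hDe⟩ := hDD
  have hDZ : (0 : ℤ) < D := by exact_mod_cast hD
  by_cases hne : Zs = []
  · subst hne
    simpa [mon] using hmon
  have hC : 1 ≤ Cc := by
    obtain ⟨z, hz⟩ := List.exists_mem_of_ne_nil Zs hne
    have hzn := (hR.hz z hz).1
    have h2 := (hB.1 z (List.mem_range.2 hzn)).2
    rcases Nat.eq_zero_or_pos Cc with h3 | h3
    · rw [h3, zero_mul] at h2
      have : 0 < D ^ 2 := by positivity
      omega
    · exact h3
  clear hne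
  have hCZ : (1 : ℤ) ≤ Cc := by exact_mod_cast hC
  -- positivity and ratios at the sites
  have key : ∀ k ∈ Zs, 0 < b (k - 1) * b (k + 1) ∧ 0 < b k ∧ 0 ≤ T b (k - 1) * T b (k + 1) ∧
      0 ≤ T b k ^ 2 ∧
      (T b (k - 1) * T b (k + 1)) * (b k ^ 2) ^ 2 ≤ Cc * (b (k - 1) * b (k + 1)) ^ 2 * T b k ^ 2 ∧
      (b (k - 1) * b (k + 1)) ^ 2 * T b k ^ 2 ≤ Cc * (T b (k - 1) * T b (k + 1)) * (b k ^ 2) ^ 2 := by
    intro k hk
    obtain ⟨hkn, hx, hxy⟩ := hR.hz k hk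
    have n1 := hR.nn (k - 1)
    have n2 := hR.nn (k + 1)
    have n3 := hR.nn k
    have hb1 : 0 < b (k - 1) := by
      rcases n1.lt_or_eq with h3 | h3
      · exact h3
      · rw [← h3, zero_mul] at hx; exact absurd hx (lt_irrefl _)
    have hb2 : 0 < b (k + 1) := by
      rcases n2.lt_or_eq with h3 | h3
      · exact h3
      · rw [← h3, mul_zero] at hx; exact absurd hx (lt_irrefl _)
    have hb : 0 < b k := by
      rcases n3.lt_or_eq with h3 | h3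
      · exact h3
      · rw [← h3] at hxy
        have : 0 < (D : ℤ) * (b (k - 1) * b (k + 1)) := mul_pos hDZ hx
        simp at hxy
        omega
    obtain ⟨s1, s2⟩ := h1 n D e0 Cc N Zs lo hi ents b hD hB hR k hb1 hb hb2
    refine ⟨hx, hb, ?_, sq_nonneg _, s1, s2⟩
    have hy4 : (0 : ℤ) < (b k ^ 2) ^ 2 := by positivity
    have hle : 0 ≤ Cc * (T b (k - 1) * T b (k + 1)) * (b k ^ 2) ^ 2 :=
      le_trans (by positivity) s2
    have h5 : 0 ≤ Cc * (T b (k - 1) * T b (k + 1)) := nonneg_of_mul_nonneg_left hle hy4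
    exact nonneg_of_mul_nonneg_right h5 (by linarith)
  -- the products
  set Pi : ℤ := (Zs.map (fun k => (b k ^ 2) ^ (2 * N))).prod with hPi
  set Th : ℤ := (Zs.map (fun k => (T b k ^ 2) ^ N)).prod with hTh
  have hPipos : 0 < Pi := prod_pos' _ _ (fun k hk => by have := (key k hk).2.1; positivity)
  have hThnn : 0 ≤ Th := (prod_le Zs (fun k => (T b k ^ 2) ^ N) (fun k => (T b k ^ 2) ^ N)
    (fun k hk => ⟨by positivity, le_refl _⟩)).1
  have hcpos : (0 : ℤ) < ((Cc : ℤ) ^ N) ^ Zs.length := by positivity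
  have A1 : ∀ q : List ℕ, (∀ k ∈ Zs, ex q k ≤ N) →
      mon Zs N q (T b) * Pi ≤ ((Cc : ℤ) ^ N) ^ Zs.length * (mon Zs N q b ^ 2 * Th) := by
    intro q hq
    have := (prod_le Zs
      (fun k => 1 * (((T b (k - 1) * T b (k + 1)) ^ ex q k * (T b k ^ 2) ^ (N - ex q k)) *
        (b k ^ 2) ^ (2 * N)))
      (fun k => (Cc : ℤ) ^ N * (((b (k - 1) * b (k + 1)) ^ ex q k * (b k ^ 2) ^ (N - ex q k)) ^ 2 *
        (T b k ^ 2) ^ N)) (fun k hk => by
        obtain ⟨k1, k2, k3, k4, k5, k6⟩ := key k hk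
        refine ⟨by positivity, ?_⟩
        rw [one_mul]
        exact site1 Cc _ _ _ _ N _ (hq k hk) hCZ k1.le (by positivity) k3 k4 k5)).2
    rw [prod_mul3', prod_mul3] at this
    simpa [mon] using this
  have A2 : ∀ q : List ℕ, (∀ k ∈ Zs, ex q k ≤ N) →
      mon Zs N q b ^ 2 * Th ≤ ((Cc : ℤ) ^ N) ^ Zs.length * (mon Zs N q (T b) * Pi) := by
    intro q hq
    have := (prod_le Zs
      (fun k => 1 * (((b (k - 1) * b (k + 1)) ^ ex q k * (b k ^ 2) ^ (N - ex q k)) ^ 2 *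
        (T b k ^ 2) ^ N))
      (fun k => (Cc : ℤ) ^ N * (((T b (k - 1) * T b (k + 1)) ^ ex q k * (T b k ^ 2) ^ (N - ex q k)) *
        (b k ^ 2) ^ (2 * N))) (fun k hk => by
        obtain ⟨k1, k2, k3, k4, k5, k6⟩ := key k hk
        refine ⟨by positivity, ?_⟩
        rw [one_mul]
        exact site2 Cc _ _ _ _ N _ (hq k hk) hCZ k1.le (by positivity) k3 k4 k6)).2
    rw [prod_mul3, prod_mul3'] at this
    simpa [mon] using this
  have Mnn : ∀ q : List ℕ, 0 ≤ mon Zs N q b := by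
    intro q
    exact (prod_le Zs (fun k => (b (k - 1) * b (k + 1)) ^ (ex q k) * (b k ^ 2) ^ (N - ex q k))
      (fun k => (b (k - 1) * b (k + 1)) ^ (ex q k) * (b k ^ 2) ^ (N - ex q k))
      (fun k hk => ⟨by have := (key k hk).1; positivity, le_refl _⟩)).1
  have MTnn : 0 ≤ mon Zs N ga (T b) := by
    exact (prod_le Zs (fun k => (T b (k - 1) * T b (k + 1)) ^ (ex ga k) * (T b k ^ 2) ^ (N - ex ga k))
      (fun k => (T b (k - 1) * T b (k + 1)) ^ (ex ga k) * (T b k ^ 2) ^ (N - ex ga k))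
      (fun k hk => ⟨by have := (key k hk).2.2.1; positivity, le_refl _⟩)).1
  set c : ℤ := ((Cc : ℤ) ^ N) ^ Zs.length with hc
  have a1 := A1 e (fun k hk => (heg k hk).1)
  have a2 := A2 ga (fun k hk => (heg k hk).2)
  have hsq : ((D : ℤ) * mon Zs N e b) ^ 2 ≤ ((e0 : ℤ) * mon Zs N ga b) ^ 2 :=
    pow_le_pow_left₀ (mul_nonneg hDZ.le (Mnn e)) hmon 2
  have hce : c ^ 2 * e0 ≤ (D : ℤ) := by
    have e1 : c ^ 2 = (Cc : ℤ) ^ (2 * N * Zs.length) := by
      rw [hc, ← pow_mul, ← pow_mul]; congr 1; ring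
    rw [e1]
    calc (Cc : ℤ) ^ (2 * N * Zs.length) * e0 = e0 * (Cc : ℤ) ^ (2 * N * Zs.length) := by ring
      _ ≤ e0 * (Cc : ℤ) ^ (2 * N * Zs.length + 1) :=
        mul_le_mul_of_nonneg_left (pow_le_pow_right₀ hCZ (by omega)) (by positivity)
      _ ≤ D := by exact_mod_cast hDe
  have fin : (D : ℤ) * Pi * ((D : ℤ) * mon Zs N e (T b)) ≤ (D : ℤ) * Pi * (e0 * mon Zs N ga (T b)) := by
    calc (D : ℤ) * Pi * ((D : ℤ) * mon Zs N e (T b)) = (D : ℤ) ^ 2 * (mon Zs N e (T b) * Pi) := by ring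
      _ ≤ (D : ℤ) ^ 2 * (c * (mon Zs N e b ^ 2 * Th)) := mul_le_mul_of_nonneg_left a1 (by positivity)
      _ = ((D : ℤ) * mon Zs N e b) ^ 2 * (c * Th) := by ring
      _ ≤ ((e0 : ℤ) * mon Zs N ga b) ^ 2 * (c * Th) := mul_le_mul_of_nonneg_right hsq (by positivity)
      _ = (e0 : ℤ) ^ 2 * c * (mon Zs N ga b ^ 2 * Th) := by ring
      _ ≤ (e0 : ℤ) ^ 2 * c * (c * (mon Zs N ga (T b) * Pi)) :=
        mul_le_mul_of_nonneg_left a2 (by positivity)
      _ = (c ^ 2 * e0) * (Pi * (e0 * mon Zs N ga (T b))) := by ring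
      _ ≤ (D : ℤ) * (Pi * (e0 * mon Zs N ga (T b))) :=
        mul_le_mul_of_nonneg_right hce (by positivity)
      _ = (D : ℤ) * Pi * (e0 * mon Zs N ga (T b)) := by ring
  exact le_of_mul_le_mul_left fin (by positivity)

end Pool.Agent.Helper51.DF.SM
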