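import Pool.Agent.Helper99.DF.St

/-! # Project DF, module SO: Z-sites and outer boxes for the next iterate -/

set_option autoImplicit false

namespace Pool.Agent.Helper51.DF

open Pool.Agent.Helper99.DF

/-- Both neighbours are positive when the product is. -/
theorem pos_of_prod {n D e0 N : ℕ} {Zs lo hi : List ℕ} {ents : List Ent} {b : ℕ → ℤ}
    (hR : Rg n D e0 N Zs lo hi ents b) {k : ℕ} (h : 0 < b (k - 1) * b (k + 1)) :
    0 < b (k - 1) ∧ 0 < b (k + 1) := by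
  have h1 := hR.nn (k - 1)
  have h2 := hR.nn (k + 1)
  constructor
  · rcases h1.lt_or_eq with h3 | h3
    · exact h3
    · rw [← h3, zero_mul] at h; exact absurd h (lt_irrefl _)
  · rcases h2.lt_or_eq with h3 | h3
    · exact h3
    · rw [← h3, mul_zero] at h; exact absurd h (lt_irrefl _)

theorem lt_of_pos {n D e0 N : ℕ} {Zs lo hi : List ℕ} {ents : List Ent} {b : ℕ → ℤ}
    (hR : Rg n D e0 N Zs lo hi ents b) {k : ℕ} (h : 0 < b k) : k < n := by
  by_contra h1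
  rw [hR.out k (by omega)] at h
  exact absurd h (lt_irrefl _)

/-- The centre is positive as soon as `D u ≤ c`. -/
theorem pos_of_bound {n D e0 N : ℕ} {Zs lo hi : List ℕ} {ents : List Ent} {b : ℕ → ℤ}
    (hR : Rg n D e0 N Zs lo hi ents b) (hD : 0 < D) {k c : ℕ} (h : 0 < b (k - 1) * b (k + 1))
    (h1 : (D : ℤ) * (b (k - 1) * b (k + 1)) ≤ c * b k ^ 2) : 0 < b k := by
  rcases (hR.nn k).lt_or_eq with h3 | h3
  · exact h3
  · rw [← h3] at h1
    have : 0 < (D : ℤ) * (b (k - 1) * b (k + 1)) := mul_pos (by exact_mod_cast hD) h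
    simp at h1
    omega

theorem lo_le_hi {n D e0 Cc : ℕ} {Zs lo hi : List ℕ} {ents : List Ent}
    (hB : okB n D e0 Cc Zs lo hi ents) {k : ℕ} (hk : k < n) : ex lo k ≤ ex hi k ∧ ex hi k < D := by
  obtain ⟨h1, h2, h3, h4⟩ := hB
  refine ⟨?_, (h1 k (List.mem_range.2 hk)).1⟩
  rcases h3 k (List.mem_range.2 hk) with (h5 | ⟨en, hen, rfl⟩) | h5
  · rw [(h2 k (List.mem_range.2 hk) h5).1]; exact Nat.zero_le _
  · exact (h4 en hen).2.2
  · rw [h5.1]; exact Nat.zero_le _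

theorem one_le_Cc {n D e0 Cc : ℕ} {Zs lo hi : List ℕ} {ents : List Ent} (hD : 0 < D)
    (hB : okB n D e0 Cc Zs lo hi ents) {k : ℕ} (hk : k < n) : 1 ≤ Cc := by
  have h1 := (hB.1 k (List.mem_range.2 hk)).2
  rcases Nat.eq_zero_or_pos Cc with h2 | h2
  · rw [h2, zero_mul] at h1
    have : 0 < D ^ 2 := by positivity
    omega
  · exact h2

/-- Arithmetic at a `Z`-site. -/
theorem arithZ (D e0 Cc x y X Y : ℤ) (hD : 0 < D) (he : 0 ≤ e0) (hC : 0 ≤ Cc) (hx : 0 < x) (hy : 0 < y)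
    (hY : 0 ≤ Y) (h1 : D * x ≤ e0 * y) (h2 : Cc * e0 ≤ D) (h3 : X * y ^ 2 ≤ Cc * x ^ 2 * Y) :
    D * X ≤ e0 * Y := by
  have h4 : (D * x) ^ 2 ≤ (e0 * y) ^ 2 := pow_le_pow_left₀ (by positivity) h1 2
  have h5 : D * (D * X * y ^ 2) ≤ D * (e0 * Y * y ^ 2) := by
    calc D * (D * X * y ^ 2) = D ^ 2 * (X * y ^ 2) := by ring
      _ ≤ D ^ 2 * (Cc * x ^ 2 * Y) := mul_le_mul_of_nonneg_left h3 (by positivity)
      _ = (D * x) ^ 2 * (Cc * Y) := by ring
      _ ≤ (e0 * y) ^ 2 * (Cc * Y) := mul_le_mul_of_nonneg_right h4 (by positivity)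
      _ = (Cc * e0) * (e0 * Y * y ^ 2) := by ring
      _ ≤ D * (e0 * Y * y ^ 2) := mul_le_mul_of_nonneg_right h2 (by positivity)
  have h6 : D * X * y ^ 2 ≤ e0 * Y * y ^ 2 := le_of_mul_le_mul_left h5 hD
  exact le_of_mul_le_mul_right h6 (by positivity)

/-- Arithmetic: lower bound at an entry. -/
theorem arithL (D l2 l hm hp x y p q r A B : ℤ) (hD : 0 < D) (hl2 : 0 ≤ l2) (hl : 0 ≤ l)
    (hy : 0 < y) (hx : 0 < x) (hA : 0 ≤ A) (hB : 0 ≤ B) (hAB : A * B = x ^ 2) (hm0 : 0 ≤ D - hm)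
    (hp0 : 0 ≤ D - hp) (hr : 0 ≤ r)
    (h1 : l * y ≤ D * x) (h2 : D * r ≤ (D - l) * y) (h3 : (D - hm) * A ≤ D * p)
    (h4 : (D - hp) * B ≤ D * q)
    (h5 : l2 * D * (D - l) ^ 2 ≤ l ^ 2 * ((D - hm) * (D - hp))) : l2 * r ^ 2 ≤ D * (p * q) := by
  have a1 : (l * y) ^ 2 ≤ (D * x) ^ 2 := pow_le_pow_left₀ (by positivity) h1 2
  have a2 : (D * r) ^ 2 ≤ ((D - l) * y) ^ 2 := pow_le_pow_left₀ (by positivity) h2 2
  have a3 : ((D - hm) * A) * ((D - hp) * B) ≤ (D * p) * (D * q) :=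
    mul_le_mul h3 h4 (by positivity) (le_trans (by positivity) h3)
  have h6 : D ^ 3 * (l2 * r ^ 2) ≤ D ^ 3 * (D * (p * q)) := by
    calc D ^ 3 * (l2 * r ^ 2) = D * l2 * (D * r) ^ 2 := by ring
      _ ≤ D * l2 * ((D - l) * y) ^ 2 := mul_le_mul_of_nonneg_left a2 (by positivity)
      _ = (l2 * D * (D - l) ^ 2) * y ^ 2 := by ring
      _ ≤ (l ^ 2 * ((D - hm) * (D - hp))) * y ^ 2 := mul_le_mul_of_nonneg_right h5 (by positivity)
      _ = (l * y) ^ 2 * ((D - hm) * (D - hp)) := by ring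
      _ ≤ (D * x) ^ 2 * ((D - hm) * (D - hp)) := mul_le_mul_of_nonneg_right a1 (by positivity)
      _ = D ^ 2 * (((D - hm) * A) * ((D - hp) * B)) := by rw [mul_pow, ← hAB]; ring
      _ ≤ D ^ 2 * ((D * p) * (D * q)) := mul_le_mul_of_nonneg_left a3 (by positivity)
      _ = D ^ 3 * (D * (p * q)) := by ring
  exact le_of_mul_le_mul_left h6 (by positivity)

/-- Arithmetic: upper bound at an entry. -/
theorem arithU (D h2' h lm lp x y p q r A B : ℤ) (hD : 0 < D) (hh2 : 0 ≤ h2')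
    (hy : 0 < y) (hx : 0 < x) (hA : 0 ≤ A) (hB : 0 ≤ B) (hAB : A * B = x ^ 2) (hh0 : 0 ≤ D - h)
    (hm0 : 0 ≤ D - lm) (hp0 : 0 ≤ D - lp) (hp1 : 0 ≤ p) (hq1 : 0 ≤ q)
    (h1 : D * x ≤ h * y) (h2 : (D - h) * y ≤ D * r) (h3 : D * p ≤ (D - lm) * A)
    (h4 : D * q ≤ (D - lp) * B)
    (h5 : h ^ 2 * ((D - lm) * (D - lp)) ≤ h2' * D * (D - h) ^ 2) : D * (p * q) ≤ h2' * r ^ 2 := by
  have a1 : (D * x) ^ 2 ≤ (h * y) ^ 2 := pow_le_pow_left₀ (by positivity) h1 2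
  have a2 : ((D - h) * y) ^ 2 ≤ (D * r) ^ 2 := pow_le_pow_left₀ (by positivity) h2 2
  have a3 : (D * p) * (D * q) ≤ ((D - lm) * A) * ((D - lp) * B) :=
    mul_le_mul h3 h4 (by positivity) (by positivity)
  have h6 : D ^ 3 * (D * (p * q)) ≤ D ^ 3 * (h2' * r ^ 2) := by
    calc D ^ 3 * (D * (p * q)) = D ^ 2 * ((D * p) * (D * q)) := by ring
      _ ≤ D ^ 2 * (((D - lm) * A) * ((D - lp) * B)) := mul_le_mul_of_nonneg_left a3 (by positivity)
      _ = (D * x) ^ 2 * ((D - lm) * (D - lp)) := by rw [mul_pow, ← hAB]; ring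
      _ ≤ (h * y) ^ 2 * ((D - lm) * (D - lp)) := mul_le_mul_of_nonneg_right a1 (by positivity)
      _ = (h ^ 2 * ((D - lm) * (D - lp))) * y ^ 2 := by ring
      _ ≤ (h2' * D * (D - h) ^ 2) * y ^ 2 := mul_le_mul_of_nonneg_right h5 (by positivity)
      _ = D * h2' * ((D - h) * y) ^ 2 := by ring
      _ ≤ D * h2' * (D * r) ^ 2 := mul_le_mul_of_nonneg_left a2 (by positivity)
      _ = D ^ 3 * (h2' * r ^ 2) := by ring
  exact le_of_mul_le_mul_left h6 (by positivity)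

theorem hSO (h1 : StSA) (h2 : StSU) : StSO := by
  intro n D e0 Cc Mg N Zs lo hi lo2 hi2 ents b hB hO hDD hR
  obtain ⟨hD, hMg, hDe⟩ := hDD
  have hDZ : (0 : ℤ) < D := by exact_mod_cast hD
  constructor
  · intro k hk
    obtain ⟨hkn, hx, hxy⟩ := hR.hz k hk
    obtain ⟨hb1, hb2⟩ := pos_of_prod hR hx
    have hb := pos_of_bound hR hD hx hxy
    have hC := one_le_Cc hD hB hkn
    have hCe : Cc * e0 ≤ D := by
      calc Cc * e0 = e0 * Cc ^ 1 := by ring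
        _ ≤ e0 * Cc ^ (2 * N * Zs.length + 1) :=
          Nat.mul_le_mul_left _ (Nat.pow_le_pow_right hC (by omega))
        _ ≤ D := hDe
    exact arithZ D e0 Cc (b (k - 1) * b (k + 1)) (b k ^ 2) (T b (k - 1) * T b (k + 1)) (T b k ^ 2)
      hDZ (by positivity) (by positivity) hx (by positivity) (by positivity) hxy
      (by exact_mod_cast hCe) (h2 n D e0 Cc N Zs lo hi ents b hD hB hR k hb1 hb hb2).1
  · intro en hen
    obtain ⟨hkn, hx, hyl, hyu⟩ := hR.hy en hen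
    obtain ⟨hb1, hb2⟩ := pos_of_prod hR hx
    have hb := pos_of_bound hR hD hx hyu
    obtain ⟨hs0, hs⟩ := h1 n D e0 Cc N Zs lo hi ents b hB hR
    obtain ⟨-, -, m1, m2⟩ := hs (en.1 - 1) hb1
    obtain ⟨-, -, c1, c2⟩ := hs en.1 hb
    obtain ⟨-, -, p1, p2⟩ := hs (en.1 + 1) hb2
    have tm := (hs0 (en.1 - 1)).1 hb1
    have tc := (hs0 en.1).1 hb
    have tp := (hs0 (en.1 + 1)).1 hb2
    obtain ⟨lm1, lm2⟩ := lo_le_hi hB (lt_of_pos hR hb1)
    obtain ⟨lc1, lc2⟩ := lo_le_hi hB hkn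
    obtain ⟨lp1, lp2⟩ := lo_le_hi hB (lt_of_pos hR hb2)
    obtain ⟨o1, o2, o3⟩ := hO en hen
    have hAB : b (en.1 - 1) ^ 2 * b (en.1 + 1) ^ 2 = (b (en.1 - 1) * b (en.1 + 1)) ^ 2 := by ring
    have o1' : (ex lo2 en.1 : ℤ) * D * ((D : ℤ) - ex lo en.1) ^ 2
        ≤ (ex lo en.1 : ℤ) ^ 2 * (((D : ℤ) - ex hi (en.1 - 1)) * ((D : ℤ) - ex hi (en.1 + 1))) := by
      have := o1
      zify [show ex lo en.1 ≤ D by omega, show ex hi (en.1 - 1) ≤ D by omega,
        show ex hi (en.1 + 1) ≤ D by omega] at this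
      exact this
    have o2' : (ex hi en.1 : ℤ) ^ 2 * (((D : ℤ) - ex lo (en.1 - 1)) * ((D : ℤ) - ex lo (en.1 + 1)))
        ≤ (ex hi2 en.1 : ℤ) * D * ((D : ℤ) - ex hi en.1) ^ 2 := by
      have := o2
      zify [show ex hi en.1 ≤ D by omega, show ex lo (en.1 - 1) ≤ D by omega,
        show ex lo (en.1 + 1) ≤ D by omega] at this
      exact this
    constructor
    · exact arithL D (ex lo2 en.1) (ex lo en.1) (ex hi (en.1 - 1)) (ex hi (en.1 + 1))
        (b (en.1 - 1) * b (en.1 + 1)) (b en.1 ^ 2) (T b (en.1 - 1)) (T b (en.1 + 1)) (T b en.1)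
        (b (en.1 - 1) ^ 2) (b (en.1 + 1) ^ 2) hDZ (by positivity) (by positivity) (by positivity) hx
        (by positivity) (by positivity) hAB (by have : (ex hi (en.1 - 1) : ℤ) < D := by exact_mod_cast lm2
                                                omega)
        (by have : (ex hi (en.1 + 1) : ℤ) < D := by exact_mod_cast lp2
            omega) tc.le hyl c2 m1 p1 o1'
    · exact arithU D (ex hi2 en.1) (ex hi en.1) (ex lo (en.1 - 1)) (ex lo (en.1 + 1))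
        (b (en.1 - 1) * b (en.1 + 1)) (b en.1 ^ 2) (T b (en.1 - 1)) (T b (en.1 + 1)) (T b en.1)
        (b (en.1 - 1) ^ 2) (b (en.1 + 1) ^ 2) hDZ (by positivity) (by positivity) hx
        (by positivity) (by positivity) hAB
        (by have : (ex hi en.1 : ℤ) < D := by exact_mod_cast lc2
            omega)
        (by have : (ex lo (en.1 - 1) : ℤ) < D := by exact_mod_cast (lt_of_le_of_lt lm1 lm2)
            omega)
        (by have : (ex lo (en.1 + 1) : ℤ) < D := by exact_mod_cast (lt_of_le_of_lt lp1 lp2)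
            omega) tm.le tp.le hyu c1 m2 p2 o2'

end Pool.Agent.Helper51.DF
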